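import Mathlib

namespace Pool.Agent.H.MP_ceba03_an
open MeasureTheory AddCircle

abbrev T := UnitAddCircle
noncomputable abbrev μ : Measure T := haarAddCircle
noncomputable abbrev L1 := Lp ℂ 1 μ

lemma int_mul (h : L1) (ψ : C(T, ℂ)) : Integrable (fun x => ψ x * h x) μ :=
  (L1.integrable_coeFn h).bdd_mul (c := ‖ψ‖) ψ.continuous.aestronglyMeasurable
    (Filter.Eventually.of_forall ψ.norm_coe_le_norm)

noncomputable def P0 : L1 →ₗ[ℂ] C(T, ℂ) →ₗ[ℂ] ℂ :=
  LinearMap.mk₂ ℂ (fun h ψ => ∫ x, ψ x * h x ∂μ)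
    (fun h g ψ => by
      rw [← integral_add (int_mul h ψ) (int_mul g ψ)]
      refine integral_congr_ae ?_
      filter_upwards [Lp.coeFn_add h g] with x hx
      rw [hx, Pi.add_apply, mul_add])
    (fun c h ψ => by
      rw [← integral_smul]
      refine integral_congr_ae ?_
      filter_upwards [Lp.coeFn_smul c h] with x hx
      rw [hx, Pi.smul_apply, smul_eq_mul, smul_eq_mul]; ring)
    (fun h ψ φ => by
      rw [← integral_add (int_mul h ψ) (int_mul h φ)]
      simp [add_mul])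
    (fun c h ψ => by
      rw [← integral_smul]
      simp [mul_assoc])

lemma P0_le (h : L1) (ψ : C(T, ℂ)) : ‖P0 h ψ‖ ≤ 1 * ‖h‖ * ‖ψ‖ := by
  rw [one_mul, L1.norm_eq_integral_norm, ← integral_mul_const]
  refine norm_integral_le_of_norm_le ((L1.integrable_coeFn h).norm.mul_const _) ?_
  filter_upwards with x
  rw [norm_mul, mul_comm]
  exact mul_le_mul_of_nonneg_left (ψ.norm_coe_le_norm x) (norm_nonneg _)

noncomputable def P : L1 →L[ℂ] C(T, ℂ) →L[ℂ] ℂ := P0.mkContinuous₂ 1 P0_le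

lemma P_apply (h : L1) (ψ : C(T, ℂ)) : P h ψ = ∫ x, ψ x * h x ∂μ := rfl

lemma P_le (h : L1) (ψ : C(T, ℂ)) : ‖P h ψ‖ ≤ ‖h‖ * ‖ψ‖ := by
  have := P0_le h ψ
  rw [one_mul] at this
  exact this

noncomputable def co (m : ℤ) : L1 →L[ℂ] ℂ := P.flip (fourier (-m))

lemma co_eq (m : ℤ) (h : L1) : co m h = fourierCoeff (h : T → ℂ) m := rfl

lemma co_le (m : ℤ) (h : L1) : ‖co m h‖ ≤ ‖h‖ := by
  have := P_le h (fourier (-m))
  rwa [fourier_norm, mul_one] at this

lemma P_fourier (h : L1) (m : ℤ) : P h (fourier m) = co (-m) h := by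
  simp [co]

noncomputable def toL : C(T, ℂ) →L[ℂ] L1 := ContinuousMap.toLp 1 μ ℂ

lemma toL_ae (u : C(T, ℂ)) : toL u =ᵐ[μ] u := ContinuousMap.coeFn_toLp μ u

lemma co_toL (m : ℤ) (u : C(T, ℂ)) : co m (toL u) = fourierCoeff u m :=
  congrFun (fourierCoeff_congr_ae (toL_ae u)) m

lemma co_mul_fourier (m k : ℤ) (u : C(T, ℂ)) :
    co m (toL (u * fourier k)) = co (m - k) (toL u) := by
  rw [co_toL, co_toL, fourierCoeff, fourierCoeff]
  congr 1
  funext x
  rw [neg_sub, sub_eq_add_neg, fourier_add]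
  simp only [ContinuousMap.mul_apply, smul_eq_mul]
  ring

lemma co_fourier (m k : ℤ) : co m (toL (fourier k)) = if m = k then 1 else 0 := by
  rw [co_toL, fourierCoeff_fourier, Pi.single_apply]

lemma norm_toL (u : C(T, ℂ)) : ‖toL u‖ = ∫ x, ‖u x‖ ∂μ := by
  rw [L1.norm_eq_integral_norm]
  refine integral_congr_ae ?_
  filter_upwards [toL_ae u] with x hx
  rw [hx]

lemma exists_conv (f g : L1) : ∃ h : L1, ∀ n, co n h = co n f * co n g := by
  have hf := L1.integrable_coeFn f
  have hg := L1.integrable_coeFn g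
  have hc := hf.integrable_convolution (ContinuousLinearMap.mul ℝ ℂ) hg
  refine ⟨hc.toL1 _, fun n => ?_⟩
  rw [co_eq, fourierCoeff_congr_ae hc.coeFn_toL1]
  have := integral_convolution (ContinuousLinearMap.mul ℝ ℂ) (int_mul f (fourier (-n)))
    (int_mul g (fourier (-n)))
  rw [ContinuousLinearMap.mul_apply'] at this
  refine Eq.trans ?_ this
  rw [fourierCoeff]
  congr 1
  funext x
  rw [convolution_def, convolution_def, ← integral_smul]
  congr 1
  funext t
  have e : fourier (-n) x = fourier (-n) t * fourier (-n) (x - t) := by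
    simp only [fourier_apply]
    rw [← Circle.coe_mul, ← toCircle_add, ← smul_add, add_sub_cancel]
  simp only [ContinuousLinearMap.mul_apply', smul_eq_mul, e]
  ring

lemma rl (h : L1) {ε : ℝ} (hε : 0 < ε) : ∃ N : ℕ, ∀ m : ℤ, (N : ℤ) < |m| → ‖co m h‖ < ε := by
  have h1 : h ∈ (Submodule.span ℂ (Set.range (@fourierLp 1 _ 1 _))).topologicalClosure := by
    rw [span_fourierLp_closure_eq_top (by simp)]; trivial
  obtain ⟨p, hp, hd⟩ := Metric.mem_closure_iff.1 h1 ε hε
  have : ∃ N : ℕ, ∀ m : ℤ, (N : ℤ) < |m| → co m p = 0 := by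
    clear hd
    induction hp using Submodule.span_induction with
    | mem x hx =>
      obtain ⟨k, rfl⟩ := hx
      refine ⟨k.natAbs, fun m hm => ?_⟩
      refine (co_fourier m k).trans (if_neg ?_)
      rintro rfl
      simp at hm
    | zero => exact ⟨0, fun m _ => map_zero _⟩
    | add x y _ _ hx hy =>
      obtain ⟨N1, h1⟩ := hx
      obtain ⟨N2, h2⟩ := hy
      refine ⟨N1 + N2, fun m hm => ?_⟩
      rw [map_add, h1 m (by push_cast at hm; omega), h2 m (by push_cast at hm; omega), add_zero]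
    | smul c x _ hx =>
      obtain ⟨N1, h1⟩ := hx
      exact ⟨N1, fun m hm => by rw [map_smul, h1 m hm, smul_zero]⟩
  obtain ⟨N, hN⟩ := this
  refine ⟨N, fun m hm => ?_⟩
  have := co_le m (h - p)
  rw [map_sub, hN m hm, sub_zero] at this
  rw [dist_eq_norm] at hd
  linarith

lemma P_repr (S : C(T, ℂ)) (s : ℤ → ℝ) (hs : ∀ m, co m (toL S) = s m) (D : ℕ)
    (hD : ∀ m : ℤ, (D : ℤ) < |m| → s m = 0) (he : ∀ m, s (-m) = s m) (h0 : s 0 = 0) (h : L1) :
    P h S = ∑ m ∈ Finset.range (D + 1), (s m : ℂ) * (co m h + co (-m) h) := by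
  have hs' : fourierCoeff S = fun m => (s m : ℂ) := by
    funext m; rw [← co_toL, hs]
  have h1 : Summable (fourierCoeff S) := by
    rw [hs']
    refine summable_of_ne_finset_zero (s := Finset.Icc (-(D : ℤ)) D) fun m hm => ?_
    rw [hD m (by rw [Finset.mem_Icc, ← abs_le] at hm; omega), Complex.ofReal_zero]
  have h2 := ((hasSum_fourier_series_of_summable h1).mapL (P h)).nat_add_neg
  simp only [hs', map_smul, P_fourier, smul_eq_mul, he, h0, neg_neg, Complex.ofReal_zero,
    zero_mul, add_zero] at h2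
  refine h2.unique ?_
  have : ∀ m : ℕ, (s m : ℂ) * co (-m) h + (s m : ℂ) * co m h =
      (s m : ℂ) * (co m h + co (-m) h) := fun m => by ring
  simp only [this]
  refine hasSum_sum_of_ne_finset_zero fun m hm => ?_
  rw [hD m (by rw [Finset.mem_range] at hm; rw [Nat.abs_cast]; omega), Complex.ofReal_zero,
    zero_mul]

end Pool.Agent.H.MP_ceba03_an
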