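import Mathlib
import Pool.Agent.H.MP_ceba03_an.A

namespace Pool.Agent.H.MP_ceba03_an
open MeasureTheory AddCircle

noncomputable def cs (n : ℤ) : C(T, ℂ) := fourier n + fourier (-n)

lemma cs_real (n : ℤ) (x : T) : ∃ r : ℝ, |r| ≤ 2 ∧ cs n x = r := by
  refine ⟨2 * (fourier n x).re, ?_, ?_⟩
  · have h1 : ‖fourier n x‖ ≤ 1 := by simp [fourier_apply]
    have := (Complex.abs_re_le_norm (fourier n x)).trans h1
    rw [abs_mul, abs_two]; linarith
  · rw [cs, ContinuousMap.add_apply, fourier_neg, Complex.add_conj]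

lemma co_step (u v : C(T, ℂ)) (a c : ℤ → ℝ) (ha : ∀ m, co m (toL u) = a m)
    (hc : ∀ m, co m (toL v) = c m) (x : ℝ) (n m : ℤ) :
    co m (toL (u + (x : ℂ) • (v * cs n))) = ((a m + x * (c (m - n) + c (m + n)) : ℝ) : ℂ) := by
  rw [cs, mul_add, map_add, map_add, map_smul, map_smul, map_add, map_add, co_mul_fourier,
    co_mul_fourier, ha, hc, hc, sub_neg_eq_add]
  push_cast
  rfl

structure Blk (M : ℕ) (α β : ℕ → ℝ) (Q : Finset ℕ) (D : ℕ) (ι : ℕ → ℕ) (u C S : C(T, ℂ))
    (a c s : ℤ → ℝ) : Prop where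
  hu : ∀ m, co m (toL u) = a m
  hC : ∀ m, co m (toL C) = c m
  hS : ∀ m, co m (toL S) = s m
  ea : ∀ m, a (-m) = a m
  ec : ∀ m, c (-m) = c m
  es : ∀ m, s (-m) = s m
  supp : ∀ m : ℤ, (D : ℤ) < |m| → a m = 0 ∧ c m = 0 ∧ s m = 0
  gap : ∀ m : ℤ, m ≠ 0 → |m| ≤ M → a m = 0 ∧ c m = 0 ∧ s m = 0
  a0 : a 0 = 1
  c0 : c 0 = 1
  s0 : s 0 = 0
  MD : M < D
  hι : ∀ q ∈ Q, M < ι q ∧ ι q ≤ D ∧ a (ι q) = α q ∧ s (ι q) = β q
  inj : Set.InjOn ι Q
  sm1 : ∀ m, m ≠ 0 → |a m| ≤ 1 / 4
  sm2 : ∀ m : ℕ, 0 < m → m ∉ Q.image ι → |a m| ≤ 1 / 16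
  en : ∑' m, (c m ^ 2 + s m ^ 2) ≤ Real.exp (2 * ∑ q ∈ Q, β q ^ 2)
  pos : ∀ x, ∃ r : ℝ, 0 ≤ r ∧ u x = r
  bd : ∀ x, ‖C x‖ ^ 2 + ‖S x‖ ^ 2 ≤ Real.exp (4 * ∑ q ∈ Q, β q ^ 2)

lemma summ_of_supp (E : ℤ → ℝ) (D : ℕ) (h : ∀ m : ℤ, (D : ℤ) < |m| → E m = 0) : Summable E :=
  summable_of_ne_finset_zero (s := Finset.Icc (-(D : ℤ)) D) fun m hm =>
    h m (by rw [Finset.mem_Icc, ← abs_le] at hm; omega)

lemma blk (M : ℕ) (α β : ℕ → ℝ) (Q : Finset ℕ) (hα : ∀ q ∈ Q, |α q| ≤ 1 / 4) :
    ∃ D ι u C S a c s, Blk M α β Q D ι u C S a c s := by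
  induction Q using Finset.induction_on with
  | empty =>
    have h1 : ∀ m : ℤ, co m (toL 1) = ((if m = 0 then 1 else 0 : ℝ) : ℂ) := by
      intro m
      have : (1 : C(T, ℂ)) = fourier 0 := by ext x; simp
      rw [this, co_fourier]
      split_ifs <;> simp
    refine ⟨M + 1, id, 1, 1, 0, fun m => if m = 0 then 1 else 0, fun m => if m = 0 then 1 else 0,
      fun _ => 0, h1, h1, by simp, by simp, by simp, by simp, ?_, ?_, by simp, by simp, by simp,
      by simp, by simp, by simp, ?_, ?_, ?_, fun x => ⟨1, by simp, by simp⟩, by simp⟩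
    · intro m hm
      have : m ≠ 0 := by rintro rfl; simp at hm; omega
      simp [this]
    · intro m hm _; simp [hm]
    · intro m hm; simp [hm]
    · intro m hm _; simp [hm.ne']
    · simp
  | insert q Q hq ih =>
    obtain ⟨D, ι, u, C, S, a, c, s, B⟩ := ih fun p hp => hα p (Finset.mem_insert_of_mem hp)
    have hq4 := hα q (Finset.mem_insert_self _ _)
    obtain ⟨n, hn⟩ : ∃ n : ℕ, 3 * D + 1 ≤ n := ⟨_, le_rfl⟩
    have hMD := B.MD
    have in1 : ∀ m : ℤ, |m| ≤ D → (D : ℤ) < |m - n| ∧ (D : ℤ) < |m + n| := by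
      intro m hm; rw [abs_le] at hm
      constructor <;> rw [lt_abs] <;> omega
    have lo : ∀ m : ℤ, |m| ≤ D → a (m - n) = 0 ∧ c (m - n) = 0 ∧ s (m - n) = 0 ∧
        a (m + n) = 0 ∧ c (m + n) = 0 ∧ s (m + n) = 0 := by
      intro m hm
      obtain ⟨h1, h2⟩ := in1 m hm
      obtain ⟨_, _, _⟩ := B.supp _ h1
      obtain ⟨_, _, _⟩ := B.supp _ h2
      simp [*]
    have hi : ∀ m : ℤ, (D : ℤ) < m → a m = 0 ∧ c m = 0 ∧ s m = 0 ∧
        a (m + n) = 0 ∧ c (m + n) = 0 ∧ s (m + n) = 0 := by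
      intro m hm
      obtain ⟨_, _, _⟩ := B.supp m (by rw [lt_abs]; omega)
      obtain ⟨_, _, _⟩ := B.supp (m + n) (by rw [lt_abs]; omega)
      simp [*]
    have ne : ∀ m : ℤ, m < -(D : ℤ) → a m = 0 ∧ c m = 0 ∧ s m = 0 ∧
        a (m - n) = 0 ∧ c (m - n) = 0 ∧ s (m - n) = 0 := by
      intro m hm
      obtain ⟨_, _, _⟩ := B.supp m (by rw [lt_abs]; omega)
      obtain ⟨_, _, _⟩ := B.supp (m - n) (by rw [lt_abs]; omega)
      simp [*]
    have tri : ∀ m : ℤ, |m| ≤ D ∨ (D : ℤ) < m ∨ m < -(D : ℤ) := by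
      intro m; rw [abs_le]; omega
    have ev : ∀ f : ℤ → ℝ, (∀ m, f (-m) = f m) → ∀ m : ℤ,
        f (-m - n) + f (-m + n) = f (m - n) + f (m + n) := by
      intro f hf m
      rw [← hf (m - n), ← hf (m + n), add_comm]
      congr 2 <;> ring
    have hup : ∀ p ∈ Q, Function.update ι q n p = ι p := fun p hp =>
      Function.update_of_ne (by rintro rfl; exact hq hp) _ _
    have z0 := lo 0 (by simp)
    refine ⟨n + D, Function.update ι q n, u + (α q : ℂ) • (u * cs n),
      C + ((-β q : ℝ) : ℂ) • (S * cs n), S + (β q : ℂ) • (C * cs n),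
      fun m => a m + α q * (a (m - n) + a (m + n)),
      fun m => c m + -β q * (s (m - n) + s (m + n)),
      fun m => s m + β q * (c (m - n) + c (m + n)),
      co_step _ _ _ _ B.hu B.hu _ _, co_step _ _ _ _ B.hC B.hS _ _,
      co_step _ _ _ _ B.hS B.hC _ _, fun m => by rw [B.ea, ev a B.ea],
      fun m => by rw [B.ec, ev s B.es], fun m => by rw [B.es, ev c B.ec], ?_, ?_, ?_, ?_, ?_,
      by omega, ?_, ?_, ?_, ?_, ?_, ?_, ?_⟩
    · intro m hm
      push_cast at hm
      obtain ⟨_, _, _⟩ := B.supp m (by omega)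
      obtain ⟨_, _, _⟩ := B.supp (m - n) (by rw [lt_abs] at hm ⊢; omega)
      obtain ⟨_, _, _⟩ := B.supp (m + n) (by rw [lt_abs] at hm ⊢; omega)
      simp [*]
    · intro m hm h
      obtain ⟨_, _, _⟩ := B.gap m hm h
      obtain ⟨_, _, _, _, _, _⟩ := lo m (by omega)
      simp [*]
    · simp only [z0.1, z0.2.2.2.1, B.a0]; ring
    · simp only [z0.2.2.1, z0.2.2.2.2.2, B.c0]; ring
    · simp only [z0.2.1, z0.2.2.2.2.1, B.s0]; ring
    · intro p hp
      rcases Finset.mem_insert.1 hp with rfl | hp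
      · obtain ⟨h1, h2, h3, h4, h5, h6⟩ := hi n (by omega)
        rw [Function.update_self]
        refine ⟨by omega, by omega, ?_, ?_⟩
        · simp only [h1, h4, sub_self, B.a0]; ring
        · simp only [h3, h5, sub_self, B.c0]; ring
      · obtain ⟨k1, k2, k3, k4⟩ := B.hι p hp
        obtain ⟨h1, h2, h3, h4, h5, h6⟩ := lo (ι p) (by rw [Nat.abs_cast]; omega)
        rw [hup p hp]
        refine ⟨k1, by omega, ?_, ?_⟩
        · simp only [h1, h4, k3]; ring
        · simp only [h2, h5, k4]; ring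
    · rw [Finset.coe_insert, Set.injOn_insert (by simpa using hq)]
      refine ⟨B.inj.congr fun p hp => (hup p hp).symm, ?_⟩
      rintro ⟨p, hp, h⟩
      rw [hup p hp, Function.update_self] at h
      have := (B.hι p hp).2.1
      omega
    · intro m hm
      have key : ∀ k, |α q * a k| ≤ 1 / 4 := by
        intro k
        rw [abs_mul]
        have : |a k| ≤ 1 := by
          by_cases h : k = 0
          · rw [h, B.a0, abs_one]
          · linarith [B.sm1 k h]
        nlinarith [abs_nonneg (α q), abs_nonneg (a k)]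
      rcases tri m with h | h | h
      · obtain ⟨h1, h2, h3, h4, h5, h6⟩ := lo m h
        simpa only [h1, h4, add_zero, mul_zero] using B.sm1 m hm
      · obtain ⟨h1, h2, h3, h4, h5, h6⟩ := hi m h
        simpa only [h1, h4, add_zero, zero_add] using key _
      · obtain ⟨h1, h2, h3, h4, h5, h6⟩ := ne m h
        simpa only [h1, h4, add_zero, zero_add] using key _
    · intro m hm hm'
      rw [Finset.image_insert, Finset.mem_insert, Function.update_self, not_or,
        Finset.image_congr (g := ι) fun p hp => hup p hp] at hm'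
      rcases tri m with h | h | h
      · obtain ⟨h1, h2, h3, h4, h5, h6⟩ := lo m h
        simpa only [h1, h4, add_zero, mul_zero] using B.sm2 m hm hm'.2
      · obtain ⟨h1, h2, h3, h4, h5, h6⟩ := hi m h
        simp only [h1, h4, add_zero, zero_add, abs_mul]
        have := B.sm1 (m - n) (by have := hm'.1; omega)
        nlinarith [abs_nonneg (α q), abs_nonneg (a (m - n))]
      · omega
    · obtain ⟨E, hE⟩ : ∃ E : ℤ → ℝ, E = fun m => c m ^ 2 + s m ^ 2 := ⟨_, rfl⟩
      have hs : Summable E := summ_of_supp E D fun m hm => by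
        obtain ⟨_, _, _⟩ := B.supp m hm
        simp [*]
      have e1 : ∀ m : ℤ, (c m + -β q * (s (m - n) + s (m + n))) ^ 2 +
          (s m + β q * (c (m - n) + c (m + n))) ^ 2 =
          E m + β q ^ 2 * E (m - n) + β q ^ 2 * E (m + n) := by
        intro m
        rw [hE]
        rcases tri m with h | h | h
        · obtain ⟨h1, h2, h3, h4, h5, h6⟩ := lo m h
          simp only [h2, h3, h5, h6]; ring
        · obtain ⟨h1, h2, h3, h4, h5, h6⟩ := hi m h
          simp only [h2, h3, h5, h6]; ring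
        · obtain ⟨h1, h2, h3, h4, h5, h6⟩ := ne m h
          simp only [h2, h3, h5, h6]; ring
      simp only [e1]
      have s1 : HasSum (fun m => E (m - n)) (∑' m, E m) :=
        (Equiv.subRight (n : ℤ)).hasSum_iff.2 hs.hasSum
      have s2 : HasSum (fun m => E (m + n)) (∑' m, E m) :=
        (Equiv.addRight (n : ℤ)).hasSum_iff.2 hs.hasSum
      rw [((hs.hasSum.add (s1.mul_left _)).add (s2.mul_left _)).tsum_eq, Finset.sum_insert hq,
        mul_add, Real.exp_add]
      have e2 : ∑' m, E m ≤ Real.exp (2 * ∑ q ∈ Q, β q ^ 2) := by rw [hE]; exact B.en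
      have e3 := Real.add_one_le_exp (2 * β q ^ 2)
      have e4 : 0 ≤ ∑' m, E m := tsum_nonneg fun m => by rw [hE]; positivity
      calc _ = (2 * β q ^ 2 + 1) * ∑' m, E m := by ring
        _ ≤ _ := mul_le_mul e3 e2 e4 (Real.exp_pos _).le
    · intro x
      obtain ⟨r, hr, h⟩ := B.pos x
      obtain ⟨t, ht, h'⟩ := cs_real n x
      refine ⟨r * (1 + α q * t), mul_nonneg hr ?_, ?_⟩
      · have : |α q * t| ≤ 1 := by
          rw [abs_mul]; nlinarith [abs_nonneg (α q), abs_nonneg t]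
        linarith [neg_abs_le (α q * t)]
      · simp only [ContinuousMap.add_apply, ContinuousMap.smul_apply, ContinuousMap.mul_apply,
          h, h', smul_eq_mul]
        push_cast; ring
    · intro x
      obtain ⟨t, ht, h'⟩ := cs_real n x
      have e1 := B.bd x
      simp only [ContinuousMap.add_apply, ContinuousMap.smul_apply, ContinuousMap.mul_apply,
        h', smul_eq_mul]
      rw [Finset.sum_insert hq, mul_add, Real.exp_add]
      have e3 := Real.add_one_le_exp (4 * β q ^ 2)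
      have e5 : t ^ 2 ≤ 4 := by nlinarith [sq_abs t, abs_nonneg t]
      calc _ = ((β q ^ 2 * t ^ 2) + 1) * (‖C x‖ ^ 2 + ‖S x‖ ^ 2) := by
            simp only [Complex.sq_norm, Complex.normSq_apply]
            simp
            ring
        _ ≤ _ := mul_le_mul (by nlinarith [sq_nonneg (β q)]) e1 (by positivity)
            (Real.exp_pos _).le

end Pool.Agent.H.MP_ceba03_an
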