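import Mathlib
import Pool.Agent.H.MP_ceba03_an.B

namespace Pool.Agent.H.MP_ceba03_an
open MeasureTheory AddCircle

structure St where
  D : ℕ
  Q : Finset ℕ
  a : ℕ → ℝ
  b : ℕ → ℝ

def Inv (e : ℝ) (s : St) : Prop :=
  (∀ q ∈ s.Q, 0 < q ∧ q ≤ s.D ∧ |s.a q| ≤ e / 4) ∧ 2 * ∑ q ∈ s.Q, s.b q ^ 2 ≤ (e / 4) ^ 2

noncomputable def HH (h : L1) (q : ℕ) : ℂ := co q h + co (-q) h

structure Step (e : ℝ) (s t : St) (ι : ℕ → ℕ) (φ : L1) (ψ : C(T, ℂ)) : Prop where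
  DD : s.D < t.D
  inj : Set.InjOn ι s.Q
  hι : ∀ q ∈ s.Q, s.D < ι q ∧ ι q ≤ t.D ∧ ι q ∉ t.Q
  hQ : ∀ q ∈ t.Q, s.D < q
  z : ∀ m : ℤ, (|m| ≤ s.D ∨ (t.D : ℤ) < |m|) → co m φ = 0
  p1 : ∀ q ∈ s.Q, co (ι q) φ = s.a q ∧ co (-ι q) φ = s.a q
  p2 : ∀ q ∈ t.Q, co q φ = t.a q ∧ co (-q) φ = t.a q
  nφ : ‖φ‖ ≤ 2 * e
  nψ : ‖ψ‖ ≤ 2 * e
  rep : ∀ h, P h ψ = ∑ q ∈ t.Q, (t.b q : ℂ) * HH h q - ∑ q ∈ s.Q, (s.b q : ℂ) * HH h (ι q)

lemma split_sum {M : Type*} [AddCommMonoid M] (D0 D : ℕ) (Q : Finset ℕ) (ι : ℕ → ℕ)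
    (inj : Set.InjOn ι Q) (h : ∀ q ∈ Q, D0 < ι q ∧ ι q ≤ D) (f : ℕ → M)
    (hf : ∀ m ≤ D0, f m = 0) :
    ∑ m ∈ Finset.range (D + 1), f m =
      ∑ m ∈ Finset.Ioc D0 D \ Q.image ι, f m + ∑ q ∈ Q, f (ι q) := by
  rw [← Finset.sum_image (f := f) inj, Finset.sum_sdiff]
  · symm
    refine Finset.sum_subset (fun m hm => ?_) fun m hm hm' => hf m ?_
    · rw [Finset.mem_Ioc] at hm; rw [Finset.mem_range]; omega
    · rw [Finset.mem_Ioc] at hm'; rw [Finset.mem_range] at hm; omega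
  · intro m hm
    obtain ⟨q, hq, rfl⟩ := Finset.mem_image.1 hm
    exact Finset.mem_Ioc.2 (h q hq)

lemma step {e : ℝ} (he : 0 < e) (s : St) (hs : Inv e s) :
    ∃ t ι φ ψ, Inv (e / 2) t ∧ Step e s t ι φ ψ := by
  obtain ⟨D, ι, u, C, S, a, c, σ, B⟩ := blk s.D (fun q => s.a q / e) (fun q => -s.b q / e) s.Q
    (fun q hq => by
      rw [abs_div, abs_of_pos he, div_le_iff₀ he]; linarith [(hs.1 q hq).2.2])
  obtain ⟨X, hX⟩ : ∃ X, X = ∑ q ∈ s.Q, (-s.b q / e) ^ 2 := ⟨_, rfl⟩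
  have hX0 : 0 ≤ X := hX ▸ Finset.sum_nonneg fun _ _ => sq_nonneg _
  have hX1 : 2 * X ≤ 1 / 16 := by
    have : X = (∑ q ∈ s.Q, s.b q ^ 2) / e ^ 2 := by
      rw [hX, Finset.sum_div]
      exact Finset.sum_congr rfl fun q _ => by rw [div_pow, neg_sq]
    rw [this, ← mul_div_assoc, div_le_iff₀ (by positivity)]
    linarith [hs.2]
  have σ0 : ∀ m : ℕ, m ≤ s.D → σ m = 0 := by
    intro m hm
    by_cases h : m = 0
    · rw [h]; exact B.s0
    · exact (B.gap m (by omega) (by rw [Nat.abs_cast]; omega)).2.2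
  have hι := fun q hq => (⟨(B.hι q hq).1, (B.hι q hq).2.1⟩ : s.D < ι q ∧ ι q ≤ D)
  have hco : ∀ m : ℤ, co m ((e : ℂ) • (toL u - toL (fourier 0))) =
      e * (a m - if m = 0 then 1 else 0) := by
    intro m
    rw [map_smul, map_sub, B.hu, co_fourier, smul_eq_mul]
  refine ⟨⟨D, Finset.Ioc s.D D \ s.Q.image ι, fun m => e * a m, fun m => e * σ m⟩, ι,
    (e : ℂ) • (toL u - toL (fourier 0)), (e : ℂ) • S, ⟨?_, ?_⟩, B.MD, B.inj, ?_, ?_, ?_, ?_, ?_,
    ?_, ?_, ?_⟩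
  · intro q hq
    simp only [Finset.mem_sdiff, Finset.mem_Ioc] at hq
    refine ⟨by omega, hq.1.2, ?_⟩
    have := B.sm2 q (by omega) hq.2
    simp only [abs_mul, abs_of_pos he]
    nlinarith
  · obtain ⟨E, hE⟩ : ∃ E : ℤ → ℝ, E = fun m => c m ^ 2 + σ m ^ 2 := ⟨_, rfl⟩
    have hsum : Summable E := summ_of_supp E D fun m hm => by
      obtain ⟨_, _, _⟩ := B.supp m hm
      simp [*]
    have e1 := sum_le_hasSum (Finset.range (D + 1))
      (fun m _ => by rw [hE]; positivity) hsum.hasSum.nat_add_neg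
    have e2 : ∑' m, E m ≤ Real.exp (2 * X) := by rw [hE, hX]; exact B.en
    have e3 := split_sum s.D D s.Q ι B.inj hι (fun m => σ m ^ 2) fun m hm => by
      simp [σ0 m hm]
    have e4 : ∑ q ∈ s.Q, σ (ι q) ^ 2 = X :=
      hX ▸ Finset.sum_congr rfl fun q hq => by rw [(B.hι q hq).2.2.2]
    have e5 : (1 : ℝ) ≤ ∑ m ∈ Finset.range (D + 1), c m ^ 2 := by
      have := Finset.single_le_sum (f := fun m : ℕ => c m ^ 2) (fun m _ => sq_nonneg _)
        (Finset.mem_range.2 (Nat.succ_pos D))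
      simpa [B.c0] using this
    have e6 : ∑ m ∈ Finset.range (D + 1), (E m + E (-m)) =
        2 * ∑ m ∈ Finset.range (D + 1), c m ^ 2 + 2 * ∑ m ∈ Finset.range (D + 1), σ m ^ 2 := by
      rw [Finset.mul_sum, Finset.mul_sum, ← Finset.sum_add_distrib]
      refine Finset.sum_congr rfl fun m _ => ?_
      simp only [hE, B.ec, B.es]; ring
    have e7 : E 0 = 1 := by simp [hE, B.c0, B.s0]
    have e8 := Real.abs_exp_sub_one_sub_id_le (x := 2 * X) (by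
      rw [abs_of_nonneg (by linarith)]; linarith)
    have e9 : 2 * ∑ m ∈ Finset.Ioc s.D D \ s.Q.image ι, σ m ^ 2 ≤ 1 / 256 := by
      have := le_abs_self (Real.exp (2 * X) - 1 - 2 * X)
      nlinarith
    simp only [mul_pow, ← Finset.mul_sum]
    nlinarith [sq_nonneg e]
  · intro q hq
    refine ⟨(hι q hq).1, (hι q hq).2, ?_⟩
    simp only [Finset.mem_sdiff, not_and, not_not]
    exact fun _ => Finset.mem_image_of_mem _ hq
  · intro q hq
    simp only [Finset.mem_sdiff, Finset.mem_Ioc] at hq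
    exact hq.1.1
  · intro m hm
    rw [hco]
    by_cases h : m = 0
    · simp [h, B.a0]
    · rcases hm with hm | hm
      · simp [h, (B.gap m h hm).1]
      · simp [h, (B.supp m hm).1]
  · intro q hq
    have h1 : (ι q : ℤ) ≠ 0 := by have := (hι q hq).1; omega
    rw [hco, hco, B.ea, if_neg h1, if_neg (neg_ne_zero.2 h1), (B.hι q hq).2.2.1, and_self]
    have : (e : ℂ) ≠ 0 := by exact_mod_cast he.ne'
    push_cast
    field_simp
    ring
  · intro q hq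
    simp only [Finset.mem_sdiff, Finset.mem_Ioc] at hq
    have h1 : (q : ℤ) ≠ 0 := by omega
    rw [hco, hco, B.ea, if_neg h1, if_neg (neg_ne_zero.2 h1), and_self]
    simp
  · have h1 : ‖toL u‖ = 1 := by
      have h2 := B.hu 0
      rw [co_toL, fourierCoeff, B.a0] at h2
      rw [norm_toL]
      apply Complex.ofReal_injective
      rw [← h2, ← integral_complex_ofReal]
      congr 1
      funext x
      obtain ⟨r, hr, h⟩ := B.pos x
      simp [h, abs_of_nonneg hr]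
    have h2 : ‖toL (fourier 0)‖ = 1 := by rw [norm_toL]; simp
    rw [norm_smul, Complex.norm_real, Real.norm_of_nonneg he.le, mul_comm]
    gcongr
    exact (norm_sub_le _ _).trans (by linarith)
  · rw [norm_smul, Complex.norm_real, Real.norm_of_nonneg he.le, mul_comm]
    gcongr
    rw [ContinuousMap.norm_le _ (by norm_num)]
    intro x
    have h1 := B.bd x
    rw [← hX] at h1
    have h2 : Real.exp (4 * X) ≤ 4 :=
      (Real.exp_le_exp.2 (by linarith : 4 * X ≤ 1)).trans (by linarith [Real.exp_one_lt_d9])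
    nlinarith [sq_nonneg ‖C x‖, norm_nonneg (S x)]
  · intro h
    rw [map_smul, P_repr S σ B.hS D (fun m hm => (B.supp m hm).2.2) B.es B.s0,
      split_sum s.D D s.Q ι B.inj hι _ fun m hm => by simp [σ0 m hm], smul_eq_mul, mul_add,
      Finset.mul_sum, Finset.mul_sum, sub_eq_add_neg, ← Finset.sum_neg_distrib]
    congr 1
    · refine Finset.sum_congr rfl fun m _ => ?_
      simp only [HH]; push_cast; ring
    · refine Finset.sum_congr rfl fun q hq => ?_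
      have : (e : ℂ) ≠ 0 := by exact_mod_cast he.ne'
      simp only [HH, (B.hι q hq).2.2.2]; push_cast; field_simp

noncomputable def ee (k : ℕ) : ℝ := (1 / 2) ^ k / 4

lemma ee_pos (k : ℕ) : 0 < ee k := by unfold ee; positivity
lemma ee_succ (k : ℕ) : ee (k + 1) = ee k / 2 := by unfold ee; ring

noncomputable def s0 : St := ⟨32768, Finset.Ioc 0 32768, fun _ => 1 / 16, fun _ => 1 / 4096⟩

lemma inv0 : Inv (ee 0) s0 := by
  refine ⟨fun q hq => ?_, ?_⟩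
  · simp only [s0, Finset.mem_Ioc] at hq ⊢
    refine ⟨hq.1, hq.2, ?_⟩
    norm_num [ee]
  · simp only [s0, ee, Finset.sum_const, Nat.card_Ioc]
    norm_num

lemma chain : ∃ (s : ℕ → St) (ι : ℕ → ℕ → ℕ) (φ : ℕ → L1) (ψ : ℕ → C(T, ℂ)), s 0 = s0 ∧
    (∀ k, Inv (ee k) (s k)) ∧ ∀ k, Step (ee k) (s k) (s (k + 1)) (ι k) (φ k) (ψ k) := by
  have h : ∀ k (s : {s // Inv (ee k) s}), ∃ t : {s // Inv (ee (k + 1)) s}, ∃ ι φ ψ,
      Step (ee k) s.1 t.1 ι φ ψ := by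
    intro k s
    obtain ⟨t, ι, φ, ψ, h1, h2⟩ := step (ee_pos k) s.1 s.2
    exact ⟨⟨t, by rwa [ee_succ]⟩, ι, φ, ψ, h2⟩
  choose nx ι φ ψ hn using h
  let s : ∀ k, {s // Inv (ee k) s} := fun k => Nat.rec ⟨s0, inv0⟩ nx k
  exact ⟨fun k => (s k).1, fun k => ι k (s k), fun k => φ k (s k), fun k => ψ k (s k), rfl,
    fun k => (s k).2, fun k => hn k (s k)⟩

end Pool.Agent.H.MP_ceba03_an
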