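import Mathlib
import Pool.Agent.H.MP_ceba03_an.C

namespace Pool.Agent.H.MP_ceba03_an
open MeasureTheory AddCircle

def alg (R : ℤ → ℤ → Prop) : Submodule ℂ L1 where
  carrier := {h | ∀ x y, R x y → co y h = co x h}
  zero_mem' := fun x y _ => by simp
  add_mem' := fun {f g} hf hg x y h => by rw [map_add, map_add, hf x y h, hg x y h]
  smul_mem' := fun c f hf x y h => by rw [map_smul, map_smul, hf x y h]

lemma alg_closed (R : ℤ → ℤ → Prop) : IsClosed (alg R : Set L1) := by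
  have : (alg R : Set L1) = ⋂ x, ⋂ y, ⋂ _ : R x y, {h | co y h = co x h} := by
    ext h; simp only [Set.mem_iInter]; rfl
  rw [this]
  exact isClosed_iInter fun x => isClosed_iInter fun y => isClosed_iInter fun _ =>
    isClosed_eq (co y).continuous (co x).continuous

lemma alg_conv (R : ℤ → ℤ → Prop) (f : L1) (hf : f ∈ alg R) (g : L1) (hg : g ∈ alg R) :
    ∃ h ∈ alg R, ∀ n, co n h = co n f * co n g := by
  obtain ⟨h, hh⟩ := exists_conv f g
  exact ⟨h, fun x y r => by rw [hh, hh, hf x y r, hg x y r], hh⟩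

lemma alg_class (R : ℤ → ℤ → Prop) (h1 : ∀ x y y', R x y → R x y' → y = y')
    (h2 : ∀ x x' y, R x y → R x' y → x = x') (h3 : ∀ x y z, R x y → ¬ R y z) (n : ℤ) :
    {m : ℤ | ∀ f ∈ alg R, co m f = co n f}.ncard ≤ 2 := by
  have key : ∃ p : ℤ, ∀ x y, R x y → ((x = n ∨ x = p) ↔ (y = n ∨ y = p)) := by
    by_cases c1 : ∃ p, R n p
    · obtain ⟨p, hp⟩ := c1
      refine ⟨p, fun x y r => ⟨?_, ?_⟩⟩
      · rintro (rfl | rfl)
        · exact Or.inr (h1 _ _ _ r hp)
        · exact absurd r (h3 _ _ _ hp)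
      · rintro (rfl | rfl)
        · exact absurd hp (h3 _ _ _ r)
        · exact Or.inl (h2 _ _ _ r hp)
    by_cases c2 : ∃ p, R p n
    · obtain ⟨p, hp⟩ := c2
      refine ⟨p, fun x y r => ⟨?_, ?_⟩⟩
      · rintro (rfl | rfl)
        · exact absurd r (h3 _ _ _ hp)
        · exact Or.inl (h1 _ _ _ r hp)
      · rintro (rfl | rfl)
        · exact Or.inr (h2 _ _ _ r hp)
        · exact absurd hp (h3 _ _ _ r)
    · refine ⟨n, fun x y r => ⟨?_, ?_⟩⟩
      · rintro (rfl | rfl) <;> exact absurd ⟨_, r⟩ c1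
      · rintro (rfl | rfl) <;> exact absurd ⟨_, r⟩ c2
  obtain ⟨p, hp⟩ := key
  have hco : ∀ m, co m (∑ t ∈ ({n, p} : Finset ℤ), toL (fourier t)) =
      if m = n ∨ m = p then 1 else 0 := by
    intro m
    simp only [map_sum, co_fourier, Finset.sum_ite_eq, Finset.mem_insert, Finset.mem_singleton]
  have hsub : {m : ℤ | ∀ f ∈ alg R, co m f = co n f} ⊆ {n, p} := by
    intro m hm
    have := hm (∑ t ∈ ({n, p} : Finset ℤ), toL (fourier t)) fun x y r => by
      simp only [hco, hp x y r]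
    rw [hco, hco, if_pos (Or.inl rfl)] at this
    by_contra hn
    rw [if_neg (show ¬ (m = n ∨ m = p) from hn)] at this
    exact zero_ne_one this
  refine (Set.ncard_le_ncard hsub (Set.toFinite _)).trans ?_
  exact (Set.ncard_insert_le _ _).trans (by simp)

theorem main : ∃ R : ℤ → ℤ → Prop, (∀ x y y', R x y → R x y' → y = y') ∧
    (∀ x x' y, R x y → R x' y → x = x') ∧ (∀ x y z, R x y → ¬ R y z) ∧
    ¬ (alg R ≤ (Submodule.span ℂ {e : L1 | e ∈ alg R ∧
      ∀ n, co n e * co n e = co n e}).topologicalClosure) := by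
  obtain ⟨s, ι, φ, ψ, hs0, hI, hS⟩ := chain
  have mono : StrictMono fun k => (s k).D := strictMono_nat_of_lt_succ fun k => (hS k).DD
  have le : ∀ {j k}, j ≤ k → (s j).D ≤ (s k).D := fun h => mono.monotone h
  have q1 : ∀ k, ∀ q ∈ (s k).Q, 0 < q ∧ q ≤ (s k).D := fun k q hq =>
    ⟨((hI k).1 q hq).1, ((hI k).1 q hq).2.1⟩
  have q2 : ∀ j k, j < k → ∀ q ∈ (s k).Q, (s j).D < q := by
    intro j k h q hq
    obtain ⟨k, rfl⟩ : ∃ i, k = i + 1 := ⟨k - 1, by omega⟩
    exact (le (by omega)).trans_lt ((hS k).hQ q hq)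
  have q3 : ∀ j k q, q ∈ (s j).Q → q ∈ (s k).Q → j = k := by
    intro j k q hj hk
    rcases lt_trichotomy j k with h | h | h
    · have := q2 j k h q hk; have := (q1 j q hj).2; omega
    · exact h
    · have := q2 k j h q hj; have := (q1 k q hk).2; omega
  have q4 : ∀ j k p q, p ∈ (s j).Q → q ∈ (s k).Q → ι j p = ι k q → p = q := by
    intro j k p q hp hq h
    have a1 := (hS j).hι p hp
    have a2 := (hS k).hι q hq
    rcases lt_trichotomy j k with h' | h' | h'
    · have := le (show j + 1 ≤ k from h'); omega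
    · subst h'; exact (hS j).inj hp hq h
    · have := le (show k + 1 ≤ j from h'); omega
  have q5 : ∀ j k p, p ∈ (s j).Q → ι j p ∉ (s k).Q := by
    intro j k p hp hq
    have a1 := (hS j).hι p hp
    rcases lt_trichotomy (j + 1) k with h' | h' | h'
    · have := q2 _ _ h' _ hq; omega
    · subst h'; exact a1.2.2 hq
    · have := le (show k ≤ j by omega); have := (q1 k _ hq).2; omega
  have q6 : ∀ k, ∀ q ∈ (s k).Q, 0 < ι k q := fun k q hq => by have := ((hS k).hι q hq).1; omega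
  let R : ℤ → ℤ → Prop := fun x y => ∃ k, ∃ q ∈ (s k).Q,
    (x = q ∧ y = ι k q) ∨ (x = -q ∧ y = -ι k q)
  refine ⟨R, ?_, ?_, ?_, ?_⟩
  · rintro x y y' ⟨k, q, hq, h⟩ ⟨k', q', hq', h'⟩
    have := (q1 k q hq).1
    have := (q1 k' q' hq').1
    obtain rfl : q = q' := by omega
    obtain rfl := q3 k k' q hq hq'
    omega
  · rintro x x' y ⟨k, q, hq, h⟩ ⟨k', q', hq', h'⟩
    have := q6 k q hq
    have := q6 k' q' hq'
    have := q4 k k' q q' hq hq' (by omega)
    omega
  · rintro x y z ⟨k, q, hq, h⟩ ⟨k', q', hq', h'⟩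
    have := q6 k q hq
    have := (q1 k' q' hq').1
    obtain rfl : ι k q = q' := by omega
    exact q5 k k' q hq hq'
  have sφ : Summable φ := by
    refine Summable.of_norm_bounded (g := fun k => 2 * ee k) ?_ fun k => (hS k).nφ
    exact (summable_geometric_two.div_const 4).mul_left 2
  obtain ⟨f0, hf0⟩ : ∃ f0 : L1, f0 = ∑ t ∈ Finset.Icc (-32768 : ℤ) 32768,
    (1 / 16 : ℂ) • toL (fourier t) := ⟨_, rfl⟩
  have c0 : ∀ m : ℤ, co m f0 = if |m| ≤ 32768 then 1 / 16 else 0 := by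
    intro m
    simp only [hf0, map_sum, map_smul, co_fourier, smul_eq_mul, mul_ite, mul_one, mul_zero,
      Finset.sum_ite_eq, Finset.mem_Icc, abs_le]
  obtain ⟨f, hf⟩ : ∃ f : L1, f = f0 + ∑' k, φ k := ⟨_, rfl⟩
  have D0 : (s 0).D = 32768 := by rw [hs0]; rfl
  have c1 : ∀ m : ℤ, |m| ≤ 32768 → co m f = 1 / 16 := by
    intro m hm
    rw [hf, map_add, c0, if_pos hm, (co m).map_tsum sφ]
    have : ∀ k, co m (φ k) = 0 := fun k => (hS k).z m (Or.inl (by
      have := le (Nat.zero_le k); omega))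
    simp [this]
  have c2 : ∀ k (m : ℤ), ((s k).D : ℤ) < |m| → |m| ≤ (s (k + 1)).D → co m f = co m (φ k) := by
    intro k m h1 h2
    have := le (Nat.zero_le k)
    rw [hf, map_add, c0, if_neg (by omega), (co m).map_tsum sφ, zero_add, tsum_eq_single k]
    intro j hj
    rcases lt_or_gt_of_ne hj with h | h
    · have := le (show j + 1 ≤ k from h)
      exact (hS j).z m (Or.inr (by omega))
    · have := le (show k + 1 ≤ j from h)
      exact (hS j).z m (Or.inl (by omega))
  have c2' : ∀ k (m : ℕ), (s k).D < m → m ≤ (s (k + 1)).D →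
      co m f = co m (φ k) ∧ co (-m) f = co (-m) (φ k) := fun k m h1 h2 =>
    ⟨c2 k m (by rw [Nat.abs_cast]; omega) (by rw [Nat.abs_cast]; omega),
      c2 k (-m) (by rw [abs_neg, Nat.abs_cast]; omega) (by rw [abs_neg, Nat.abs_cast]; omega)⟩
  have c3 : ∀ k, ∀ q ∈ (s k).Q, co q f = (s k).a q ∧ co (-q) f = (s k).a q := by
    intro k q hq
    rcases k with _ | k
    · have := (q1 0 q hq).2
      rw [c1 _ (by rw [Nat.abs_cast]; omega), c1 _ (by rw [abs_neg, Nat.abs_cast]; omega), hs0]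
      simp [s0]
    · obtain ⟨a1, a2⟩ := c2' k q ((hS k).hQ q hq) (q1 _ q hq).2
      rw [a1, a2]
      exact (hS k).p2 q hq
  have fA : f ∈ alg R := by
    rintro x y ⟨k, q, hq, h⟩
    obtain ⟨a1, a2⟩ := c2' k (ι k q) ((hS k).hι q hq).1 ((hS k).hι q hq).2.1
    obtain ⟨b1, b2⟩ := (hS k).p1 q hq
    obtain ⟨d1, d2⟩ := c3 k q hq
    rcases h with ⟨rfl, rfl⟩ | ⟨rfl, rfl⟩
    · rw [a1, b1, d1]
    · rw [a2, b2, d2]
  let Λ : ℕ → L1 → ℂ := fun k h => ∑ q ∈ (s k).Q, ((s k).b q : ℂ) * HH h q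
  have tel : ∀ h ∈ alg R, ∀ k, Λ (k + 1) h = Λ k h + P h (ψ k) := by
    intro h hh k
    rw [(hS k).rep]
    have : ∑ q ∈ (s k).Q, ((s k).b q : ℂ) * HH h (ι k q) = Λ k h :=
      Finset.sum_congr rfl fun q hq => by
        rw [HH, HH, hh _ _ ⟨k, q, hq, Or.inl ⟨rfl, rfl⟩⟩, hh _ _ ⟨k, q, hq, Or.inr ⟨rfl, rfl⟩⟩]
    rw [this]; ring
  have b1 : ∀ h ∈ alg R, ∀ k, ‖Λ k h‖ ≤ (17 - 4 * ee k) * ‖h‖ := by
    intro h hh k
    induction k with
    | zero =>
      refine (norm_sum_le_of_le _ (n := fun _ => 1 / 2048 * ‖h‖) fun q _ => ?_).trans ?_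
      · have : ‖HH h q‖ ≤ 2 * ‖h‖ :=
          (norm_add_le _ _).trans (by linarith [co_le q h, co_le (-q) h])
        rw [norm_mul, hs0]
        norm_num [s0]
        linarith
      · rw [hs0]
        simp only [s0, ee, Finset.sum_const, Nat.card_Ioc]
        norm_num
        linarith
    | succ k ih =>
      rw [tel h hh, ee_succ]
      refine (norm_add_le _ _).trans ?_
      have := (P_le h (ψ k)).trans (mul_le_mul_of_nonneg_left (hS k).nψ (norm_nonneg h))
      linarith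
  have b2 : ∀ k, ‖Λ k f - 1‖ ≤ 1 / 2 - 8 * ee k ^ 2 := by
    intro k
    induction k with
    | zero =>
      have : Λ 0 f = ∑ q ∈ (s 0).Q, (1 / 32768 : ℂ) := Finset.sum_congr rfl fun q hq => by
        rw [HH, (c3 0 q hq).1, (c3 0 q hq).2, hs0]; norm_num [s0]
      rw [this, hs0]
      simp only [s0, ee, Finset.sum_const, Nat.card_Ioc]
      norm_num
    | succ k ih =>
      have e : P f (ψ k) = P (φ k) (ψ k) := by
        rw [(hS k).rep, (hS k).rep]
        congr 1
        · refine Finset.sum_congr rfl fun q hq => ?_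
          obtain ⟨a1, a2⟩ := c2' k q ((hS k).hQ q hq) (q1 _ q hq).2
          rw [HH, HH, a1, a2]
        · refine Finset.sum_congr rfl fun q hq => ?_
          obtain ⟨a1, a2⟩ := c2' k (ι k q) ((hS k).hι q hq).1 ((hS k).hι q hq).2.1
          rw [HH, HH, a1, a2]
      rw [tel f fA, ee_succ, e, add_sub_right_comm]
      refine (norm_add_le _ _).trans ?_
      have := (P_le (φ k) (ψ k)).trans (mul_le_mul (hS k).nφ (hS k).nψ (norm_nonneg _)
        (by linarith [ee_pos k]))
      nlinarith [sq_nonneg (ee k)]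
  intro hle
  obtain ⟨p, hp, hd⟩ := Metric.mem_closure_iff.1 (hle fA) (1 / 68) (by norm_num)
  have pA : p ∈ alg R := (Submodule.span_le.2 fun e he => he.1) hp
  have : ∃ N : ℕ, ∀ m : ℤ, (N : ℤ) < |m| → co m p = 0 := by
    clear hd pA
    induction hp using Submodule.span_induction with
    | mem x hx =>
      obtain ⟨N, hN⟩ := rl x one_pos
      refine ⟨N, fun m hm => ?_⟩
      by_contra h
      have h1 : co m x = 1 := mul_left_cancel₀ h (by rw [hx.2, mul_one])
      have := hN m hm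
      rw [h1, norm_one] at this
      exact lt_irrefl _ this
    | zero => exact ⟨0, fun m _ => map_zero _⟩
    | add x y _ _ hx hy =>
      obtain ⟨N1, h1⟩ := hx
      obtain ⟨N2, h2⟩ := hy
      refine ⟨N1 + N2, fun m hm => ?_⟩
      rw [map_add, h1 m (by push_cast at hm; omega), h2 m (by push_cast at hm; omega), add_zero]
    | smul c x _ hx =>
      obtain ⟨N1, h1⟩ := hx
      exact ⟨N1, fun m hm => by rw [map_smul, h1 m hm, smul_zero]⟩
  obtain ⟨N, hN⟩ := this
  have e : Λ (N + 1) (f - p) = Λ (N + 1) f := Finset.sum_congr rfl fun q hq => by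
    have := (hS N).hQ q hq
    have : N ≤ (s N).D := mono.id_le N
    rw [HH, HH, map_sub, map_sub, hN _ (by rw [Nat.abs_cast]; omega),
      hN _ (by rw [abs_neg, Nat.abs_cast]; omega), sub_zero, sub_zero]
  have d1 := b1 (f - p) ((alg R).sub_mem fA pA) (N + 1)
  have d2 := b2 (N + 1)
  rw [e] at d1
  rw [dist_eq_norm] at hd
  have d3 := norm_sub_norm_le (1 : ℂ) (Λ (N + 1) f)
  rw [norm_one, norm_sub_rev] at d3
  nlinarith [ee_pos (N + 1), norm_nonneg (f - p), sq_nonneg (ee (N + 1))]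

end Pool.Agent.H.MP_ceba03_an
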